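import Mathlib
import Pool.Agent.R439.C42C

set_option autoImplicit false

namespace Pool.Agent.Results.MP_c42a9c_nt.AllOddPrimes

open Finset Pool.Agent.R439

/-- The sum `A_r(p)` of the problem. -/
def A (r p : ℕ) : ℚ :=
  ∑ k ∈ range ((p ^ r - 1) / 2 + 1), (4 * (k : ℚ) + 1) * rf (1 / 2) k ^ 4 / (k.factorial : ℚ) ^ 4

/-- The sum `B_r(p)` of the problem. -/
def B (r p : ℕ) : ℚ :=
  ∑ k ∈ range (p ^ r), (3 * (k : ℚ) + 1) * rf (1 / 2) k ^ 3 / (k.factorial : ℚ) ^ 3 * 2 ^ (2 * k)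

/-- **Answer to Q1**: for every odd prime `p` and every `r ≥ 1` the difference `A_r(p) - B_r(p)` is
`p^(r+4)` times a rational number whose denominator is prime to `p`. -/
theorem result : ∀ p r : ℕ, p.Prime → p ≠ 2 → 0 < r →
    ∃ t : ℚ, A r p - B r p = (p : ℚ) ^ (r + 4) * t ∧ ¬ p ∣ t.den := by
  intro p r hp hp2 hr
  obtain ⟨t, h1, h2⟩ := C42.final hp hp2 hr
  refine ⟨t, ?_, h2⟩
  rw [← h1, A, B]
  congr 1
  · exact sum_congr rfl fun k _ => by rw [ch, div_pow, mul_div_assoc]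
  · exact sum_congr rfl fun k _ => by rw [ch, div_pow, mul_div_assoc]

end Pool.Agent.Results.MP_c42a9c_nt.AllOddPrimes
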